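import Pool.Agent.N987.ZX.Defs

/-!
# Representations of finite 2-groups with a central involution acting as `-1`: lower bound for the
dimension, and for the index of a subgroup in terms of the dimension of its representations
-/

set_option autoImplicit false

namespace Pool.Agent.N987.ZX

open Module

section trace

variable {K : Type} [Field K] [CharZero K] {F : Type} [AddCommGroup F] [Module K F]
  [FiniteDimensional K F]

/-- If the traces of the elements outside the centre vanish, then the operators of representatives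
of the classes modulo the centre are linearly independent. -/
theorem card_le_sq [Nontrivial F] {P : Type} [Group P] [Finite P] (R : P →* (F →ₗ[K] F))
    (h : ∀ g : P, g ∉ Subgroup.center P → LinearMap.trace K F (R g) = 0) :
    Nat.card (P ⧸ Subgroup.center P) ≤ finrank K F ^ 2 := by
  classical
  let v : P ⧸ Subgroup.center P → (F →ₗ[K] F) := fun c => R c.out
  have hfin : Fintype (P ⧸ Subgroup.center P) := Fintype.ofFinite _
  have hv : LinearIndependent K v := by
    rw [Fintype.linearIndependent_iff]
    intro a ha c0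
    have h1 : LinearMap.trace K F ((∑ c, a c • v c) * R (c0.out)⁻¹) = 0 := by
      rw [ha, zero_mul, map_zero]
    rw [Finset.sum_mul, map_sum] at h1
    have h2 : ∀ c, LinearMap.trace K F ((a c • v c) * R (c0.out)⁻¹) =
        if c = c0 then a c0 * (finrank K F : K) else 0 := by
      intro c
      rw [smul_mul_assoc, map_smul, ← map_mul]
      split_ifs with hc
      · subst hc
        rw [mul_inv_cancel, map_one, LinearMap.trace_one, smul_eq_mul]
      · have h3 : c.out * (c0.out)⁻¹ ∉ Subgroup.center P := by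
          intro h4
          apply hc
          have h5 : (c0.out)⁻¹ * c.out ∈ Subgroup.center P := by
            have h6 := Subgroup.mem_center_iff.1 h4
            rw [Subgroup.mem_center_iff]
            intro g
            have h7 : (c0.out)⁻¹ * c.out = (c0.out)⁻¹ * (c.out * (c0.out)⁻¹) * c0.out := by
              group
            have h8 : (c0.out)⁻¹ * (c.out * (c0.out)⁻¹) * c0.out = c.out * (c0.out)⁻¹ := by
              rw [h6, mul_assoc, inv_mul_cancel, mul_one]
            rw [h7, h8]
            exact h6 g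
          have h6 := QuotientGroup.eq.2 h5
          rw [← c0.out_eq', ← c.out_eq']
          exact h6.symm
        rw [h _ h3, smul_zero]
    simp_rw [h2] at h1
    rw [Finset.sum_ite_eq' Finset.univ c0] at h1
    simp only [Finset.mem_univ, if_true] at h1
    rcases mul_eq_zero.1 h1 with h3 | h3
    · exact h3
    · exfalso
      have h4 : 0 < finrank K F := finrank_pos
      rw [Nat.cast_eq_zero] at h3
      omega
  have h3 := hv.fintype_card_le_finrank
  rw [Module.finrank_linearMap, ← sq] at h3
  rwa [Nat.card_eq_fintype_card]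

theorem trace_zero_of_conj {P : Type} [Group P] (R : P →* (F →ₗ[K] F)) {g h : P}
    (hgh : R (h * g * h⁻¹) = -R g) : LinearMap.trace K F (R g) = 0 := by
  have h1 : LinearMap.trace K F (R (h * g * h⁻¹)) = LinearMap.trace K F (R g) := by
    rw [map_mul R, map_mul R, LinearMap.trace_mul_comm, ← mul_assoc, ← map_mul R, inv_mul_cancel,
      map_one R, one_mul]
  rw [hgh, map_neg] at h1
  have h2 : (2 : K) * LinearMap.trace K F (R g) = 0 := by linear_combination -h1
  rcases mul_eq_zero.1 h2 with h3 | h3
  · exact absurd h3 two_ne_zero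
  · exact h3

end trace

section group

variable {P : Type} [Group P] {z : P} {k c : ℕ}

theorem ExtraSpecial.comm (h : ExtraSpecial z k c) (x y : P) : x * y = y * x ∨ x * y = z * (y * x) := by
  have hz : ∀ x : P, z * x = x * z := h.central
  have key : ∀ a b : P, (a = 1 ∨ a = z) → (b = 1 ∨ b = z) → (a * b = 1 ∨ a * b = z) := by
    intro a b ha hb
    rcases ha with rfl | rfl <;> rcases hb with rfl | rfl
    · left; simp
    · right; simp
    · right; simp
    · left; exact h.sq_one
  have h1 := h.squares (x * y)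
  have h2 := h.squares x
  have h3 := h.squares y
  -- x * y = (x*y*x*y) * (y⁻¹ * x⁻¹), y⁻¹ = (y*y)⁻¹ * y
  have hinv : ∀ a : P, (a = 1 ∨ a = z) → (a⁻¹ = 1 ∨ a⁻¹ = z) := by
    intro a ha
    rcases ha with rfl | rfl
    · left; exact inv_one
    · right; exact inv_eq_of_mul_eq_one_right h.sq_one
  have hcen : ∀ a : P, (a = 1 ∨ a = z) → ∀ b, a * b = b * a := by
    intro a ha b
    rcases ha with rfl | rfl
    · simp
    · exact hz b
  have e1 : x * y = (x * y * (x * y)) * ((y * y)⁻¹ * (x * x)⁻¹) * (y * x) := by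
    have hy := hcen _ (hinv _ h3)
    have hx := hcen _ (hinv _ h2)
    have e2 : (y * y)⁻¹ * (x * x)⁻¹ * (y * x) = y⁻¹ * x⁻¹ := by
      calc (y * y)⁻¹ * (x * x)⁻¹ * (y * x) = (y * y)⁻¹ * ((x * x)⁻¹ * y) * x := by group
        _ = (y * y)⁻¹ * (y * (x * x)⁻¹) * x := by rw [hx]
        _ = y⁻¹ * x⁻¹ := by group
    calc x * y = (x * y * (x * y)) * (y⁻¹ * x⁻¹) := by group
      _ = (x * y * (x * y)) * ((y * y)⁻¹ * (x * x)⁻¹ * (y * x)) := by rw [e2]
      _ = _ := by group
  have h4 := key _ _ h1 (key _ _ (hinv _ h3) (hinv _ h2))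
  rcases h4 with h4 | h4
  · left; rw [e1, h4, one_mul]
  · right; rw [e1, h4]

/-- the elements outside the centre have trace zero -/
theorem ExtraSpecial.trace_zero (h : ExtraSpecial z k c) {K : Type} [Field K] [CharZero K]
    {F : Type} [AddCommGroup F] [Module K F] [FiniteDimensional K F] (R : P →* (F →ₗ[K] F))
    (hR : R z = -1) (g : P) (hg : g ∉ Subgroup.center P) : LinearMap.trace K F (R g) = 0 := by
  rw [Subgroup.mem_center_iff] at hg
  push Not at hg
  obtain ⟨x, hx⟩ := hg
  apply trace_zero_of_conj R (h := x)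
  rcases h.comm x g with h1 | h1
  · exact absurd h1 hx
  · rw [h1, mul_assoc, mul_assoc, mul_inv_cancel, mul_one, map_mul, hR, neg_one_mul]

theorem ExtraSpecial.card_quot [Finite P] (h : ExtraSpecial z k c) :
    Nat.card (P ⧸ Subgroup.center P) = 2 ^ (2 * k) := by
  have h1 := Subgroup.card_eq_card_quotient_mul_card_subgroup (Subgroup.center P)
  rw [h.card, h.card_center, pow_add] at h1
  exact (Nat.eq_of_mul_eq_mul_right (by positivity) h1).symm

/-- the lower bound for the dimension over an arbitrary field -/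
theorem ExtraSpecial.le_finrank [Finite P] (h : ExtraSpecial z k c) {K : Type} [Field K]
    [CharZero K] {F : Type} [AddCommGroup F] [Module K F] [FiniteDimensional K F] [Nontrivial F]
    (R : P →* (F →ₗ[K] F)) (hR : R z = -1) : 2 ^ k ≤ finrank K F := by
  have h1 := card_le_sq R (h.trace_zero R hR)
  rw [h.card_quot, mul_comm 2 k, pow_mul] at h1
  exact (Nat.pow_le_pow_iff_left two_ne_zero).1 h1

/-- the lower bound for the dimension of real representations if the centre has order four -/
theorem ExtraSpecial.le_finrank_real [Finite P] (h : ExtraSpecial z k c) (hc : c = 1 ∨ c = 2)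
    {F : Type} [AddCommGroup F] [Module ℝ F] [FiniteDimensional ℝ F] [Nontrivial F]
    (R : P →* (F →ₗ[ℝ] F)) (hR : R z = -1) : 2 ^ (k + c - 1) ≤ finrank ℝ F := by
  rcases hc with rfl | rfl
  · exact h.le_finrank R hR
  · -- a central element `j` with `j * j = z`
    obtain ⟨j, hj, hjz⟩ : ∃ j ∈ Subgroup.center P, j * j = z := by
      by_contra hcon
      push Not at hcon
      have h1 : Nat.card (Subgroup.center P) ≤ Nat.card ({1, z} : Set P) := by
        apply Nat.card_le_card_of_injective
          (fun g : Subgroup.center P => (⟨(g : P), by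
            rcases h.center_sq g g.2 with h2 | h2 | h2
            · left; exact h2
            · right; exact h2
            · exact absurd h2 (hcon g g.2)⟩ : ({1, z} : Set P)))
        intro a b hab
        have h8 := congrArg Subtype.val hab
        exact Subtype.ext h8
      have h2 := Set.ncard_insert_le (1 : P) {z}
      rw [Set.ncard_singleton] at h2
      have h3 : Nat.card ({1, z} : Set P) = ({1, z} : Set P).ncard := rfl
      rw [h.card_center] at h1
      omega
    have hJ : R j * R j = -1 := by rw [← map_mul, hjz, hR]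
    have hJc : ∀ g, R g * R j = R j * R g := by
      intro g
      rw [← map_mul, ← map_mul, Subgroup.mem_center_iff.1 hj g]
    let f : ℂ →ₐ[ℝ] (F →ₗ[ℝ] F) := Complex.lift ⟨R j, hJ⟩
    have hf : ∀ w : ℂ, f w = algebraMap ℝ (F →ₗ[ℝ] F) w.re + w.im • R j := fun w => rfl
    let _ : Module ℂ F := Module.compHom F f.toRingHom
    have hsm : ∀ (w : ℂ) (v : F), w • v = f w v := fun w v => rfl
    have _ : IsScalarTower ℝ ℂ F := ⟨fun r w v => by
      rw [hsm, hsm, map_smul]
      rfl⟩
    have _ : FiniteDimensional ℂ F := Module.Finite.of_restrictScalars_finite ℝ ℂ F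
    let R' : P →* (F →ₗ[ℂ] F) :=
      { toFun := fun g =>
          { toFun := R g
            map_add' := map_add _
            map_smul' := fun w v => by
              rw [hsm, hsm, RingHom.id_apply, hf]
              simp only [LinearMap.add_apply, LinearMap.smul_apply, map_add, map_smul,
                Module.algebraMap_end_apply]
              have h5 : R g (R j v) = R j (R g v) := LinearMap.congr_fun (hJc g) v
              rw [h5] }
        map_one' := by
          ext v
          show R 1 v = v
          rw [map_one]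
          rfl
        map_mul' := fun a b => by
          ext v
          show R (a * b) v = R a (R b v)
          rw [map_mul]
          rfl }
    have hR' : R' z = -1 := by
      ext v
      show R z v = -v
      rw [hR]
      rfl
    have h1 := h.le_finrank R' hR'
    have h2 := Module.finrank_mul_finrank ℝ ℂ F
    rw [Complex.finrank_real_complex] at h2
    rw [← h2, show k + 2 - 1 = k + 1 from rfl, pow_succ]
    omega

end group

section induced

variable {P : Type} [Group P] {z : P} {k c : ℕ} {Q : Subgroup P} {V : Type} [AddCommGroup V]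
  [Module ℝ V]

/-- The space of the induced representation, with `z = -1`. -/
def IndS (z : P) (ρ : Q →* (V →ₗ[ℝ] V)) : Submodule ℝ (P → V) where
  carrier := {f | (∀ (x : P) (q : Q), f (x * q) = ρ q⁻¹ (f x)) ∧ ∀ x, f (x * z) = -f x}
  add_mem' := by
    intro f g hf hg
    refine ⟨fun x q => ?_, fun x => ?_⟩
    · show f (x * q) + g (x * q) = ρ q⁻¹ (f x + g x)
      rw [hf.1, hg.1, map_add]
    · show f (x * z) + g (x * z) = -(f x + g x)
      rw [hf.2, hg.2, neg_add]
  zero_mem' := ⟨fun x q => by simp, fun x => by simp⟩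
  smul_mem' := by
    intro t f hf
    refine ⟨fun x q => ?_, fun x => ?_⟩
    · show t • f (x * q) = ρ q⁻¹ (t • f x)
      rw [hf.1, map_smul]
    · show t • f (x * z) = -(t • f x)
      rw [hf.2, smul_neg]

/-- the action of the group on the space of the induced representation -/
def IndR (z : P) (ρ : Q →* (V →ₗ[ℝ] V)) : P →* (IndS z ρ →ₗ[ℝ] IndS z ρ) where
  toFun g :=
    { toFun := fun f => ⟨fun x => f.1 (g⁻¹ * x), fun x q => by
          show f.1 (g⁻¹ * (x * q)) = ρ q⁻¹ (f.1 (g⁻¹ * x))
          rw [← mul_assoc]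
          exact f.2.1 _ q, fun x => by
          show f.1 (g⁻¹ * (x * z)) = -(f.1 (g⁻¹ * x))
          rw [← mul_assoc]
          exact f.2.2 _⟩
      map_add' := fun f g => rfl
      map_smul' := fun t f => rfl }
  map_one' := by
    ext f x
    show f.1 (1⁻¹ * x) = f.1 x
    rw [inv_one, one_mul]
  map_mul' a b := by
    ext f x
    show f.1 ((a * b)⁻¹ * x) = f.1 (b⁻¹ * (a⁻¹ * x))
    rw [mul_inv_rev, mul_assoc]

theorem IndR_z (hz : z * z = 1) (hzc : ∀ x : P, z * x = x * z) (ρ : Q →* (V →ₗ[ℝ] V)) :
    IndR z ρ z = -1 := by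
  ext f x
  show f.1 (z⁻¹ * x) = -f.1 x
  have h1 : z⁻¹ = z := inv_eq_of_mul_eq_one_right hz
  rw [h1, hzc, f.2.2]

theorem finrank_IndS_le [Finite P] [FiniteDimensional ℝ V] (ρ : Q →* (V →ₗ[ℝ] V)) :
    finrank ℝ (IndS z ρ) ≤ Q.index * finrank ℝ V := by
  classical
  let _ : Fintype (P ⧸ Q) := Fintype.ofFinite _
  let L : IndS z ρ →ₗ[ℝ] ((P ⧸ Q) → V) :=
    { toFun := fun f c => f.1 c.out
      map_add' := fun f g => rfl
      map_smul' := fun t f => rfl }
  have hL : Function.Injective L := by
    rw [← LinearMap.ker_eq_bot, LinearMap.ker_eq_bot']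
    intro f hf
    apply Subtype.ext
    funext x
    have h1 : f.1 ((x : P ⧸ Q).out) = 0 := congrFun hf (x : P ⧸ Q)
    have h2 : ((x : P ⧸ Q).out)⁻¹ * x ∈ Q := by
      rw [← QuotientGroup.eq]
      exact Quotient.out_eq' _
    have h3 := f.2.1 ((x : P ⧸ Q).out) ⟨_, h2⟩
    rw [h1, map_zero] at h3
    have h4 : (x : P ⧸ Q).out * (((x : P ⧸ Q).out)⁻¹ * x) = x := by group
    rw [← h4]
    exact h3
  have h1 := LinearMap.finrank_le_finrank_of_injective hL
  have h2 : finrank ℝ ((P ⧸ Q) → V) = Q.index * finrank ℝ V := by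
    rw [Module.finrank_pi_fintype]
    simp [Subgroup.index, Nat.card_eq_fintype_card]
  rwa [h2] at h1

theorem nontrivial_IndS (hz : z * z = 1) (hzc : ∀ x : P, z * x = x * z) [Nontrivial V]
    (ρ : Q →* (V →ₗ[ℝ] V)) (h : ∀ hzQ : z ∈ Q, ρ ⟨z, hzQ⟩ ≠ 1) : Nontrivial (IndS z ρ) := by
  classical
  by_cases hzQ : z ∈ Q
  · have h1 := h hzQ
    obtain ⟨v, hv⟩ : ∃ v, ρ ⟨z, hzQ⟩ v ≠ v := by
      by_contra hcon
      push Not at hcon
      exact h1 (LinearMap.ext hcon)
    set w : V := v - ρ ⟨z, hzQ⟩ v with hw
    have hw0 : w ≠ 0 := sub_ne_zero.2 (Ne.symm hv)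
    have hzz : (⟨z, hzQ⟩ : Q) * ⟨z, hzQ⟩ = 1 := Subtype.ext hz
    have hwz : ρ ⟨z, hzQ⟩ w = -w := by
      rw [hw, map_sub]
      have : ρ ⟨z, hzQ⟩ (ρ ⟨z, hzQ⟩ v) = v := by
        have h2 : (ρ ⟨z, hzQ⟩ * ρ ⟨z, hzQ⟩) v = v := by
          rw [← map_mul, hzz, map_one]; rfl
        exact h2
      rw [this]
      abel
    let f : P → V := fun x => if hx : x ∈ Q then ρ (⟨x, hx⟩ : Q)⁻¹ w else 0
    have hf : f ∈ IndS z ρ := by
      refine ⟨fun x q => ?_, fun x => ?_⟩
      · by_cases hx : x ∈ Q
        · have hxq : x * q ∈ Q := Q.mul_mem hx q.2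
          simp only [f, dif_pos hx, dif_pos hxq]
          have : (⟨x * q, hxq⟩ : Q)⁻¹ = q⁻¹ * (⟨x, hx⟩ : Q)⁻¹ := by
            rw [← mul_inv_rev]
            rfl
          rw [this, map_mul]
          rfl
        · have hxq : x * q ∉ Q := fun h2 => hx (by
            have := Q.mul_mem h2 (Q.inv_mem q.2)
            rwa [mul_assoc, mul_inv_cancel, mul_one] at this)
          simp only [f, dif_neg hx, dif_neg hxq, map_zero]
      · by_cases hx : x ∈ Q
        · have hxq : x * z ∈ Q := Q.mul_mem hx hzQ
          simp only [f, dif_pos hx, dif_pos hxq]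
          have h3 : (⟨x * z, hxq⟩ : Q)⁻¹ = (⟨x, hx⟩ : Q)⁻¹ * ⟨z, hzQ⟩ := by
            apply Subtype.ext
            show (x * z)⁻¹ = x⁻¹ * z
            rw [mul_inv_rev, inv_eq_of_mul_eq_one_right hz, hzc]
          rw [h3, map_mul]
          show ρ (⟨x, hx⟩ : Q)⁻¹ (ρ ⟨z, hzQ⟩ w) = _
          rw [hwz, map_neg]
        · have hxq : x * z ∉ Q := fun h2 => hx (by
            have := Q.mul_mem h2 (Q.inv_mem hzQ)
            rwa [mul_assoc, mul_inv_cancel, mul_one] at this)
          simp only [f, dif_neg hx, dif_neg hxq, neg_zero]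
    refine ⟨⟨⟨f, hf⟩, 0, fun h2 => hw0 ?_⟩⟩
    have h3 : f 1 = 0 := congrFun (congrArg Subtype.val h2) 1
    simp only [f, dif_pos Q.one_mem] at h3
    have h4 : (⟨1, Q.one_mem⟩ : Q)⁻¹ = 1 := inv_one
    rw [h4, map_one] at h3
    exact h3
  · obtain ⟨w, hw0⟩ := exists_ne (0 : V)
    let f : P → V := fun x => if hx : x ∈ Q then ρ (⟨x, hx⟩ : Q)⁻¹ w else
      if hx : x * z ∈ Q then -ρ (⟨x * z, hx⟩ : Q)⁻¹ w else 0
    have hnot : ∀ x, x ∈ Q → x * z ∉ Q := fun x hx h2 => hzQ (by
      have := Q.mul_mem (Q.inv_mem hx) h2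
      rwa [← mul_assoc, inv_mul_cancel, one_mul] at this)
    have hf : f ∈ IndS z ρ := by
      refine ⟨fun x q => ?_, fun x => ?_⟩
      · by_cases hx : x ∈ Q
        · have hxq : x * q ∈ Q := Q.mul_mem hx q.2
          simp only [f, dif_pos hx, dif_pos hxq]
          have : (⟨x * q, hxq⟩ : Q)⁻¹ = q⁻¹ * (⟨x, hx⟩ : Q)⁻¹ := by
            rw [← mul_inv_rev]
            rfl
          rw [this, map_mul]
          rfl
        · have hxq : x * q ∉ Q := fun h2 => hx (by
            have := Q.mul_mem h2 (Q.inv_mem q.2)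
            rwa [mul_assoc, mul_inv_cancel, mul_one] at this)
          by_cases hy : x * z ∈ Q
          · have hyq : x * q * z ∈ Q := by
              rw [mul_assoc, ← hzc, ← mul_assoc]
              exact Q.mul_mem hy q.2
            simp only [f, dif_neg hx, dif_neg hxq, dif_pos hy, dif_pos hyq]
            have h3 : (⟨x * q * z, hyq⟩ : Q)⁻¹ = q⁻¹ * (⟨x * z, hy⟩ : Q)⁻¹ := by
              rw [← mul_inv_rev]
              congr 1
              apply Subtype.ext
              show x * q * z = x * z * q
              rw [mul_assoc, ← hzc, ← mul_assoc]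
            rw [h3, map_mul, map_neg]
            rfl
          · have hyq : x * q * z ∉ Q := fun h2 => hy (by
              have h4 : x * q * z = x * z * q := by rw [mul_assoc, ← hzc, ← mul_assoc]
              rw [h4] at h2
              have := Q.mul_mem h2 (Q.inv_mem q.2)
              rwa [mul_assoc, mul_inv_cancel, mul_one] at this)
            simp only [f, dif_neg hx, dif_neg hxq, dif_neg hy, dif_neg hyq, map_zero]
      · have hxzz : x * z * z = x := by rw [mul_assoc, hz, mul_one]
        by_cases hx : x ∈ Q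
        · have hy := hnot x hx
          have hyz : x * z * z ∈ Q := by rw [hxzz]; exact hx
          simp only [f, dif_pos hx, dif_neg hy, dif_pos hyz]
          congr 4
          exact Subtype.ext hxzz
        · by_cases hy : x * z ∈ Q
          · simp only [f, dif_neg hx, dif_pos hy, neg_neg]
          · have hyz : x * z * z ∉ Q := by rw [hxzz]; exact hx
            simp only [f, dif_neg hx, dif_neg hy, dif_neg hyz, neg_zero]
    refine ⟨⟨⟨f, hf⟩, 0, fun h2 => hw0 ?_⟩⟩
    have h3 : f 1 = 0 := congrFun (congrArg Subtype.val h2) 1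
    simp only [f, dif_pos Q.one_mem] at h3
    have h4 : (⟨1, Q.one_mem⟩ : Q)⁻¹ = 1 := inv_one
    rw [h4, map_one] at h3
    exact h3

/-- **The index of a subgroup with a small representation is large.** -/
theorem ExtraSpecial.index_ge [Finite P] (h : ExtraSpecial z k c) (hc : c = 1 ∨ c = 2)
    [FiniteDimensional ℝ V] [Nontrivial V] (ρ : Q →* (V →ₗ[ℝ] V))
    (hρ : ∀ hzQ : z ∈ Q, ρ ⟨z, hzQ⟩ ≠ 1) : 2 ^ (k + c - 1) ≤ Q.index * finrank ℝ V := by
  have _ := nontrivial_IndS h.sq_one h.central ρ hρ
  exact (h.le_finrank_real hc (IndR z ρ) (IndR_z h.sq_one h.central ρ)).trans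
    (finrank_IndS_le ρ)

/-- The order of a subgroup with a small representation is small. -/
theorem ExtraSpecial.card_le [Finite P] (h : ExtraSpecial z k c) (hc : c = 1 ∨ c = 2)
    [FiniteDimensional ℝ V] [Nontrivial V] (ρ : Q →* (V →ₗ[ℝ] V))
    (hρ : ∀ hzQ : z ∈ Q, ρ ⟨z, hzQ⟩ ≠ 1) :
    Nat.card Q ≤ 2 ^ (k + 1) * finrank ℝ V := by
  have h1 := h.index_ge hc ρ hρ
  have h2 := Subgroup.card_mul_index Q
  rw [h.card] at h2
  have h3 : 2 ^ (k + c - 1) * Nat.card Q ≤ 2 ^ (k + c - 1) * (2 ^ (k + 1) * finrank ℝ V) := by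
    calc 2 ^ (k + c - 1) * Nat.card Q ≤ (Q.index * finrank ℝ V) * Nat.card Q :=
          Nat.mul_le_mul_right _ h1
      _ = (Nat.card Q * Q.index) * finrank ℝ V := by ring
      _ = 2 ^ (2 * k + c) * finrank ℝ V := by rw [h2]
      _ = 2 ^ (k + c - 1) * (2 ^ (k + 1) * finrank ℝ V) := by
          rw [← mul_assoc, ← pow_add]
          congr 2
          omega
  exact Nat.le_of_mul_le_mul_left h3 (by positivity)

end induced

end Pool.Agent.N987.ZX
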