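import Pool.Agent.H185.ZM.FI
import Pool.Agent.H185.ZM.Hom
import Pool.Agent.N987.ZX.Lin

/-!
# Actions of extraspecial 2-groups on closed manifolds
-/

set_option autoImplicit false

namespace Pool.Agent.N987.ZX

open Module Pool.Agent.H185.ZM
open scoped Manifold ContDiff

variable {E : Type} [NormedAddCommGroup E] [NormedSpace ℝ E] [FiniteDimensional ℝ E]
  {M : Type} [TopologicalSpace M] [ChartedSpace E M] [IsManifold 𝓘(ℝ, E) ∞ M]
  {P : Type} [Group P] [Finite P] {z : P} {k c : ℕ}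

theorem ExtraSpecial.isPGroup (h : ExtraSpecial z k c) : IsPGroup 2 P := by
  have _ : Fact (Nat.Prime 2) := ⟨Nat.prime_two⟩
  exact IsPGroup.of_card h.card

/-- subgroups which do not contain `z` -/
theorem ExtraSpecial.card_le_of_notMem (h : ExtraSpecial z k c) (hc : c = 1 ∨ c = 2)
    (Q : Subgroup P) (hz : z ∉ Q) : Nat.card Q ≤ 2 ^ (k + 1) := by
  have h1 := h.card_le hc (V := ℝ) (1 : Q →* (ℝ →ₗ[ℝ] ℝ)) (fun hzQ => absurd hzQ hz)
  rwa [finrank_self, mul_one] at h1

/-- subgroups with a representation of dimension `m` -/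
theorem ExtraSpecial.exponent_le (h : ExtraSpecial z k c) (hc : c = 1 ∨ c = 2)
    {V : Type} [AddCommGroup V] [Module ℝ V] [FiniteDimensional ℝ V] (Q : Subgroup P)
    (ρ : Q →* (V →ₗ[ℝ] V)) (hρ : ∀ hzQ : z ∈ Q, ρ ⟨z, hzQ⟩ ≠ 1) {t : ℕ}
    (ht : Nat.card Q = 2 ^ t) : t ≤ k + 1 + Nat.log 2 (finrank ℝ V) := by
  rcases Nat.eq_zero_or_pos (finrank ℝ V) with h0 | h0
  · have hsub : Subsingleton V := finrank_zero_iff.1 h0
    have hz : z ∉ Q := fun hzQ => hρ hzQ (LinearMap.ext fun v => Subsingleton.elim _ _)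
    have h1 := h.card_le_of_notMem hc Q hz
    rw [ht] at h1
    have h2 := (Nat.pow_le_pow_iff_right (by norm_num)).1 h1
    omega
  · have hnt : Nontrivial V := Module.nontrivial_of_finrank_pos h0
    have h1 := h.card_le hc ρ hρ
    rw [ht] at h1
    have h2 : 2 ^ t ≤ 2 ^ (k + 1) * finrank ℝ V := h1
    have h3 : 2 ^ t < 2 ^ (k + 1 + (Nat.log 2 (finrank ℝ V) + 1)) := by
      refine lt_of_le_of_lt h2 ?_
      rw [pow_add 2 (k + 1)]
      exact Nat.mul_lt_mul_of_pos_left (Nat.lt_pow_succ_log_self (by norm_num) _) (by positivity)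
    have h4 := (Nat.pow_lt_pow_iff_right (by norm_num)).1 h3
    omega

/-- **The counting theorem for subgroups of extraspecial 2-groups.** -/
theorem zx_dvd_sub [CompactSpace M] [T2Space M] [ConnectedSpace M] (h : ExtraSpecial z k c)
    (hc : c = 1 ∨ c = 2) (H : Subgroup P) {a : H → M → M} (ha : SmoothAction E a)
    (hker : ∀ p : H, (∀ y, a p y = y) → (p : P) ≠ z) :
    (Nat.card H : ℤ) ∣
      2 ^ (k + 1 + Nat.log 2 (finrank ℝ E)) * Pool.Agent.Helper381.eulerChar M := by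
  classical
  have hp2 : Fact (Nat.Prime 2) := ⟨Nat.prime_two⟩
  let K := actKer ha
  let b : H ⧸ K → M → M := fun x y => Quotient.liftOn' x (fun q => a q y) (fun q r h => by
    rw [QuotientGroup.leftRel_apply] at h
    have h1 := h y
    show a q y = a r y
    conv_lhs => rw [← h1]
    rw [← ha.mul, mul_inv_cancel_left])
  have hb1 : SmoothAction E b :=
    { one := fun y => ha.one y
      mul := fun x q y => by
        refine QuotientGroup.induction_on x fun x => QuotientGroup.induction_on q fun q => ?_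
        exact ha.mul x q y
      smooth := fun x => by
        refine QuotientGroup.induction_on x fun x => ?_
        exact ha.smooth x }
  have hfaith : ∀ x, (∀ y, b x y = y) → x = 1 := fun x hx => by
    induction x using QuotientGroup.induction_on with
    | _ x =>
      rw [QuotientGroup.eq_one_iff]
      exact hx
  have hH2 : IsPGroup 2 H := h.isPGroup.to_subgroup H
  obtain ⟨κ, hκ⟩ := IsPGroup.iff_card.1 (hH2.to_subgroup K)
  have h1 := smooth_dvd_euler hb1 (2 ^ (k + 1 + Nat.log 2 (finrank ℝ E) - κ)) (fun x Q hQ => by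
    obtain ⟨V, _, _, _, ρ, hV, hρ⟩ := exists_isotropy hb1 hfaith x Q hQ
    let S : Subgroup H := Q.comap (QuotientGroup.mk' K)
    let φ : S →* Q := (QuotientGroup.mk' K).subgroupComap Q
    have hφ : Function.Surjective φ :=
      MonoidHom.subgroupComap_surjective_of_surjective _ _ (QuotientGroup.mk'_surjective K)
    let e : S ≃* S.map H.subtype := S.equivMapOfInjective H.subtype H.subtype_injective
    have he : ∀ s : S.map H.subtype, (((e.symm s : S) : H) : P) = (s : P) := by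
      intro s
      conv_rhs => rw [← e.apply_symm_apply s]
      rfl
    have h3 : Nat.card S = Nat.card Q * 2 ^ κ := by
      have hkφ : Nat.card φ.ker = 2 ^ κ := by
        rw [← hκ]
        apply Nat.card_congr
        refine ⟨fun g => ⟨(g : S), ?_⟩, fun g => ⟨⟨(g : H), ?_⟩, ?_⟩, fun g => rfl, fun g => rfl⟩
        · have h4 : φ (g : S) = 1 := g.2
          have h5 : (((g : S) : H) : H ⧸ K) = 1 := congrArg Subtype.val h4
          rwa [QuotientGroup.eq_one_iff] at h5
        · show ((g : H) : H ⧸ K) ∈ Q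
          rw [(QuotientGroup.eq_one_iff _).2 g.2]
          exact Q.one_mem
        · show φ _ = 1
          apply Subtype.ext
          exact (QuotientGroup.eq_one_iff _).2 g.2
      rw [← Subgroup.card_mul_index φ.ker, Subgroup.index_ker, hkφ, mul_comm]
      congr 1
      rw [MonoidHom.range_eq_top.2 hφ]
      exact Nat.card_congr Subgroup.topEquiv.toEquiv
    obtain ⟨q, hq⟩ := IsPGroup.iff_card.1 ((hH2.to_quotient K).to_subgroup Q)
    have h2 := h.exponent_le hc (S.map H.subtype) ((ρ.comp φ).comp e.symm.toMonoidHom)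
      (fun hz hh => by
        have h3 : φ (e.symm ⟨z, hz⟩) = 1 := hρ (by rw [map_one]; exact hh)
        have h4 : (((e.symm ⟨z, hz⟩ : S) : H) : H ⧸ K) = 1 := congrArg Subtype.val h3
        rw [QuotientGroup.eq_one_iff] at h4
        exact hker _ h4 (he ⟨z, hz⟩)) (t := q + κ) (by
        rw [← Nat.card_congr e.toEquiv, h3, hq, pow_add])
    rw [hV] at h2
    rw [hq]
    exact Nat.pow_dvd_pow 2 (by omega))
  have h2 : Nat.card (H ⧸ K) * 2 ^ κ = Nat.card H := by
    rw [← Subgroup.card_mul_index K, hκ, mul_comm]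
    rfl
  have hκ1 : κ ≤ k + 1 + Nat.log 2 (finrank ℝ E) := by
    have h5 := h.card_le_of_notMem hc (K.map H.subtype) (by
      rintro ⟨p, hp, hpz⟩
      exact hker p hp hpz)
    rw [Subgroup.card_map_of_injective H.subtype_injective, hκ] at h5
    have h6 := (Nat.pow_le_pow_iff_right (by norm_num)).1 h5
    omega
  have h3 : (Nat.card H : ℤ) = (Nat.card (H ⧸ K) : ℤ) * 2 ^ κ := by
    exact_mod_cast h2.symm
  rw [h3]
  have h4 : (2 : ℤ) ^ (k + 1 + Nat.log 2 (finrank ℝ E)) =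
      2 ^ (k + 1 + Nat.log 2 (finrank ℝ E) - κ) * 2 ^ κ := by
    rw [← pow_add]
    congr 1
    omega
  rw [h4]
  have h5 := mul_dvd_mul_right h1 ((2 : ℤ) ^ κ)
  have h6 : (2 : ℤ) ^ (k + 1 + Nat.log 2 (finrank ℝ E) - κ) * 2 ^ κ *
      Pool.Agent.Helper381.eulerChar M =
      ((2 ^ (k + 1 + Nat.log 2 (finrank ℝ E) - κ) : ℕ) : ℤ) *
        Pool.Agent.Helper381.eulerChar M * 2 ^ κ := by
    push_cast
    ring
  rw [h6]
  exact h5

/-- groups of finite index in a group containing an extraspecial 2-group -/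
theorem fi_zx (h : ExtraSpecial z k c) (hc : c = 1 ∨ c = 2) {Γ : Type} [Group Γ] (φ : P →* Γ)
    (Γ' : Subgroup Γ) [Finite (Γ ⧸ Γ')] [CompactSpace M] [T2Space M] [ConnectedSpace M]
    {a : Γ' → M → M} (ha : SmoothAction E a)
    (hdvd : ¬ ((2 : ℤ) ^ (k + c - 1) ∣ 2 ^ Nat.log 2 (finrank ℝ E) *
      Pool.Agent.Helper381.eulerChar M * Γ'.index)) :
    ∃ (γ : Γ) (hx : γ⁻¹ * φ z * γ ∈ Γ'), (⟨_, hx⟩ : Γ') ∈ actKer ha := by
  by_contra hcon
  push Not at hcon
  apply hdvd
  have h1 := fi_dvd Γ' φ (Int.natAbs (2 ^ (k + 1 + Nat.log 2 (finrank ℝ E)) *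
      Pool.Agent.Helper381.eulerChar M)) (fun γ Q hQ => by
    have h2 := zx_dvd_sub h hc Q (ha.comp (cj Γ' φ γ Q hQ)) (fun p hp hpz => by
      have hzQ : γ⁻¹ * φ z * γ ∈ Γ' := by
        rw [← hpz]
        exact hQ p p.2
      apply hcon γ hzQ
      have h3 : (⟨γ⁻¹ * φ z * γ, hzQ⟩ : Γ') = cj Γ' φ γ Q hQ p := by
        apply Subtype.ext
        show γ⁻¹ * φ z * γ = γ⁻¹ * φ p * γ
        rw [hpz]
      rw [h3]
      exact hp)
    have h6 := Int.natAbs_dvd_natAbs.2 h2
    rwa [Int.natAbs_natCast] at h6)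
  rw [h.card] at h1
  have h2 : ((2 ^ (2 * k + c) : ℕ) : ℤ) ∣ ((Int.natAbs (2 ^ (k + 1 + Nat.log 2 (finrank ℝ E)) *
      Pool.Agent.Helper381.eulerChar M) * Γ'.index : ℕ) : ℤ) :=
    Int.natCast_dvd_natCast.2 h1
  have h3 : ((Int.natAbs (2 ^ (k + 1 + Nat.log 2 (finrank ℝ E)) *
      Pool.Agent.Helper381.eulerChar M) * Γ'.index : ℕ) : ℤ) ∣
      2 ^ (k + 1 + Nat.log 2 (finrank ℝ E)) * Pool.Agent.Helper381.eulerChar M * Γ'.index := by
    rw [Nat.cast_mul]
    exact mul_dvd_mul_right (Int.natAbs_dvd.2 dvd_rfl) _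
  have h4 := h2.trans h3
  have h5 : ((2 ^ (2 * k + c) : ℕ) : ℤ) = 2 ^ (k + 1) * 2 ^ (k + c - 1) := by
    push_cast
    rw [← pow_add]
    congr 1
    omega
  have h6 : (2 : ℤ) ^ (k + 1 + Nat.log 2 (finrank ℝ E)) * Pool.Agent.Helper381.eulerChar M *
      Γ'.index = 2 ^ (k + 1) * (2 ^ Nat.log 2 (finrank ℝ E) *
        Pool.Agent.Helper381.eulerChar M * Γ'.index) := by
    rw [pow_add]
    ring
  rw [h5, h6] at h4
  exact Int.dvd_of_mul_dvd_mul_left (by positivity) h4

end Pool.Agent.N987.ZX
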