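import Mathlib

/-!
# Definitions: extraspecial 2-groups, and algebras on which they act by automorphisms
-/

set_option autoImplicit false

namespace Pool.Agent.N987.ZX

/-- `P` is a finite group of order `2 ^ (2 k + c)` with centre of order `2 ^ c`, `z` is a central
involution, all squares are `1` or `z`, and the central elements other than `1` and `z` have the
square `z`. -/
structure ExtraSpecial {P : Type} [Group P] (z : P) (k c : ℕ) : Prop where
  card : Nat.card P = 2 ^ (2 * k + c)
  card_center : Nat.card (Subgroup.center P) = 2 ^ c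
  ne_one : z ≠ 1
  sq_one : z * z = 1
  central : ∀ x : P, z * x = x * z
  squares : ∀ x : P, x * x = 1 ∨ x * x = z
  center_sq : ∀ x ∈ Subgroup.center P, x = 1 ∨ x = z ∨ x * x = z

/-- Vectors of length `k` over the field with two elements. -/
abbrev V2 (k : ℕ) := Fin k → ZMod 2

/-- The sign `(-1)^s`. -/
def sg (R : Type) [Ring R] (s : ZMod 2) : R := if s = 0 then 1 else -1

section algebra

variable {R : Type} [CommRing R] {k : ℕ}

/-- `X^a Z^b` as an operator on the functions on `𝔽₂^k`. -/
def op (p : V2 k × V2 k) (t : V2 k → R) : V2 k → R :=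
  fun x => sg R (p.2 ⬝ᵥ (x + p.1)) * t (x + p.1)

/-- The bilinear form `∑ x, h x t x u x` on the functions on `𝔽₂^k`. -/
def pr (h t u : V2 k → R) : R := ∑ x, h x * (t x * u x)

/-- The function `h` on `𝔽₂^(r + l)` depends on the first `r` coordinates only. -/
def FirstOnly {r l : ℕ} (h : V2 (r + l) → R) : Prop :=
  ∀ x y, (∀ i : Fin r, x (Fin.castAdd l i) = y (Fin.castAdd l i)) → h x = h y

/-- The coefficient of `X^(q.1 + r.1) Z^(q.2 + r.2)` in the commutator of `X^(q.1) Z^(q.2)` and
`X^(r.1) Z^(r.2)`. -/
def coef (R : Type) [CommRing R] (q r : V2 k × V2 k) : R :=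
  sg R (q.2 ⬝ᵥ r.1) - sg R (r.2 ⬝ᵥ q.1)

variable {N : Finset (V2 k × V2 k)}

/-- The elements `f` of `N → R` stand for the operators `∑ p, f p X^(p.1) Z^(p.2)`; this is the
component `p` of the commutator of two of them. -/
def commN (f g : N → R) (p : N) : R :=
  ∑ q : N, ∑ r : N, if (q : V2 k × V2 k) + r = p then coef R (q : V2 k × V2 k) r * (f q * g r) else 0

/-- The operator `∑ p, f p X^(p.1) Z^(p.2)`. -/
def actN (f : N → R) (t : V2 k → R) : V2 k → R := ∑ p : N, f p • op (p : V2 k × V2 k) t

/-- The module `(N → R) × (𝔽₂^k → R)`. -/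
def Alg (R : Type) {k : ℕ} (N : Finset (V2 k × V2 k)) : Type := (N → R) × (V2 k → R)

instance : AddCommGroup (Alg R N) := inferInstanceAs (AddCommGroup ((N → R) × (V2 k → R)))

instance : Module R (Alg R N) := inferInstanceAs (Module R ((N → R) × (V2 k → R)))

end algebra

section product

variable {R : Type} [CommRing R] {k : ℕ} {N : Finset (V2 k × V2 k)} (h : V2 k → R) (w : N → R)

/-- The product of the algebra: the elements `f` of `N → R` stand for the operators
`∑ p, f p X^(p.1) Z^(p.2)`, with the commutator as product, they act on `𝔽₂^k → R`, and the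
product of two elements `t`, `u` of this space has the components `w p * ⟨t, X^(p.1) Z^(p.2) u⟩`
with the bilinear form given by `h`. -/
def mulA (x y : Alg R N) : Alg R N :=
  (fun p => commN x.1 y.1 p + w p * pr h x.2 (op p y.2), actN x.1 y.2 - actN y.1 x.2)

/-- The automorphism group of the algebra: the `R`-linear bijections which preserve the product. -/
def AutA : Subgroup (Equiv.Perm (Alg R N)) where
  carrier := {g | (∀ x y, g (x + y) = g x + g y) ∧ (∀ (c : R) x, g (c • x) = c • g x) ∧
    ∀ x y, g (mulA h w x y) = mulA h w (g x) (g y)}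
  one_mem' := ⟨fun _ _ => rfl, fun _ _ => rfl, fun _ _ => rfl⟩
  mul_mem' := fun {g f} hg hh =>
    ⟨fun x y => by
      show g (f (x + y)) = g (f x) + g (f y)
      rw [hh.1, hg.1],
    fun c x => by
      show g (f (c • x)) = c • g (f x)
      rw [hh.2.1, hg.2.1],
    fun x y => by
      show g (f (mulA h w x y)) = mulA h w (g (f x)) (g (f y))
      rw [hh.2.2, hg.2.2]⟩
  inv_mem' := fun {g} hg =>
    ⟨fun x y => by
      apply g.injective
      rw [hg.1]
      simp,
    fun c x => by
      apply g.injective
      rw [hg.2.1]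
      simp,
    fun x y => by
      apply g.injective
      rw [hg.2.2]
      simp⟩

/-- The automorphism group as a type. -/
def AutGrp : Type := AutA h w

instance : Group (AutGrp h w) := inferInstanceAs (Group (AutA h w))

/-- The map `(f, t) ↦ (f, -t)` -/
def IsZeta (ζ : AutGrp h w) : Prop := ∀ x : Alg R N, ζ.val x = (x.1, -x.2)

end product

end Pool.Agent.N987.ZX
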