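import Pool.Agent.N987.ZX.Lin

/-!
# Pauli groups, and the algebras `(N → R) × (𝔽₂^k → R)` on which they act by automorphisms
-/

set_option autoImplicit false

namespace Pool.Agent.N987.ZX

open Finset

section sign

variable {R : Type} [CommRing R]

theorem sg_add (s t : ZMod 2) : sg R (s + t) = sg R s * sg R t := by
  have h : ∀ t : ZMod 2, t = 0 ∨ t = 1 := by decide
  have h01 : (1 : ZMod 2) ≠ 0 := by decide
  have h11 : (1 : ZMod 2) + 1 = 0 := by decide
  rcases h s with rfl | rfl <;> rcases h t with rfl | rfl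
  · simp [sg]
  · simp [sg, h01]
  · simp [sg, h01]
  · rw [h11]; simp [sg, h01]

theorem sg_zero : sg R 0 = 1 := by simp [sg]

theorem sg_mul_self (s : ZMod 2) : sg R s * sg R s = 1 := by
  rw [← sg_add, CharTwo.add_self_eq_zero, sg_zero]

end sign

/-- The Pauli group: `(s, a, b)` is `(-1)^s X^a Z^b`. -/
@[ext]
structure PG (k : ℕ) where
  s : ZMod 2
  a : V2 k
  b : V2 k
deriving DecidableEq

/-- the elements of the Pauli group as triples -/
def PG.equiv (k : ℕ) : PG k ≃ ZMod 2 × V2 k × V2 k where
  toFun p := (p.s, p.a, p.b)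
  invFun p := ⟨p.1, p.2.1, p.2.2⟩
  left_inv _ := rfl
  right_inv _ := rfl

instance (k : ℕ) : Mul (PG k) := ⟨fun p q => ⟨p.s + q.s + p.b ⬝ᵥ q.a, p.a + q.a, p.b + q.b⟩⟩
instance (k : ℕ) : One (PG k) := ⟨⟨0, 0, 0⟩⟩
instance (k : ℕ) : Inv (PG k) := ⟨fun p => ⟨p.s + p.b ⬝ᵥ p.a, p.a, p.b⟩⟩

variable {k : ℕ}

@[simp] lemma PG.mul_s (p q : PG k) : (p * q).s = p.s + q.s + p.b ⬝ᵥ q.a := rfl
@[simp] lemma PG.mul_a (p q : PG k) : (p * q).a = p.a + q.a := rfl
@[simp] lemma PG.mul_b (p q : PG k) : (p * q).b = p.b + q.b := rfl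
@[simp] lemma PG.one_s : (1 : PG k).s = 0 := rfl
@[simp] lemma PG.one_a : (1 : PG k).a = 0 := rfl
@[simp] lemma PG.one_b : (1 : PG k).b = 0 := rfl
@[simp] lemma PG.inv_s (p : PG k) : (p⁻¹).s = p.s + p.b ⬝ᵥ p.a := rfl
@[simp] lemma PG.inv_a (p : PG k) : (p⁻¹).a = p.a := rfl
@[simp] lemma PG.inv_b (p : PG k) : (p⁻¹).b = p.b := rfl

lemma vadd_self (a : V2 k) : a + a = 0 := by
  funext i
  exact CharTwo.add_self_eq_zero _

instance (k : ℕ) : Group (PG k) :=
  Group.ofLeftAxioms
    (by
      intro p q r
      ext1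
      · simp only [PG.mul_s, PG.mul_a, PG.mul_b, add_dotProduct, dotProduct_add]
        ring
      · simp only [PG.mul_a, add_assoc]
      · simp only [PG.mul_b, add_assoc])
    (by
      intro p
      ext1
      · simp
      · simp
      · simp)
    (by
      intro p
      ext1
      · simp only [PG.mul_s, PG.inv_s, PG.inv_b, PG.one_s]
        have h := CharTwo.add_self_eq_zero (p.s + p.b ⬝ᵥ p.a)
        rw [← h]
        ring
      · simp only [PG.mul_a, PG.inv_a, PG.one_a, vadd_self]
      · simp only [PG.mul_b, PG.inv_b, PG.one_b, vadd_self])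

instance (k : ℕ) : Finite (PG k) := Finite.of_equiv _ (PG.equiv k).symm

/-- the central involution -/
def PG.z (k : ℕ) : PG k := ⟨1, 0, 0⟩

theorem PG.mem_center (p : PG k) (hp : p ∈ Subgroup.center (PG k)) : p.a = 0 ∧ p.b = 0 := by
  rw [Subgroup.mem_center_iff] at hp
  constructor
  · funext i
    have h := congrArg PG.s (hp ⟨0, 0, Pi.single i 1⟩)
    simp only [PG.mul_s, zero_add, add_zero, dotProduct_zero] at h
    rw [single_dotProduct, one_mul] at h
    simpa using h
  · funext i
    have h := congrArg PG.s (hp ⟨0, Pi.single i 1, 0⟩)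
    simp only [PG.mul_s, zero_add, add_zero, zero_dotProduct] at h
    rw [dotProduct_single, mul_one] at h
    simpa using h.symm

theorem PG.extraSpecial (k : ℕ) : ExtraSpecial (PG.z k) k 1 where
  card := by
    rw [Nat.card_congr (PG.equiv k), Nat.card_prod, Nat.card_prod, Nat.card_fun, Nat.card_zmod,
      Nat.card_eq_fintype_card, Fintype.card_fin]
    ring
  card_center := by
    have e : Subgroup.center (PG k) ≃ ZMod 2 :=
      { toFun := fun p => (p : PG k).s
        invFun := fun s => ⟨⟨s, 0, 0⟩, by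
          rw [Subgroup.mem_center_iff]
          intro q
          ext1
          · simp [add_comm]
          · simp
          · simp⟩
        left_inv := fun p => by
          obtain ⟨h1, h2⟩ := PG.mem_center (p : PG k) p.2
          apply Subtype.ext
          ext1
          · rfl
          · exact h1.symm
          · exact h2.symm
        right_inv := fun s => rfl }
    rw [Nat.card_congr e, Nat.card_zmod]
    rfl
  ne_one := fun h => by
    have h1 : (1 : ZMod 2) = 0 := congrArg PG.s h
    exact absurd h1 (by decide)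
  sq_one := by
    ext1
    · simp [PG.z]
      decide
    · simp [PG.z]
    · simp [PG.z]
  central := fun x => by
    ext1
    · simp [PG.z, add_comm]
    · simp [PG.z]
    · simp [PG.z]
  squares := fun x => by
    have h1 : ∀ t : ZMod 2, t = 0 ∨ t = 1 := by decide
    rcases h1 (x.b ⬝ᵥ x.a) with h | h
    · left
      ext1
      · simp [h, CharTwo.add_self_eq_zero]
      · simp [vadd_self]
      · simp [vadd_self]
    · right
      ext1
      · simp [h, CharTwo.add_self_eq_zero, PG.z]
      · simp [vadd_self, PG.z]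
      · simp [vadd_self, PG.z]
  center_sq := fun x hx => by
    obtain ⟨h1, h2⟩ := PG.mem_center x hx
    have h3 : ∀ t : ZMod 2, t = 0 ∨ t = 1 := by decide
    rcases h3 x.s with h | h
    · left
      ext1
      · exact h
      · exact h1
      · exact h2
    · right; left
      ext1
      · exact h
      · exact h1
      · exact h2

/-- the Pauli group of the last `l` coordinates -/
def PG.up (r l : ℕ) : PG l →* PG (r + l) where
  toFun p := ⟨p.s, Fin.append 0 p.a, Fin.append 0 p.b⟩
  map_one' := by
    ext1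
    · rfl
    · funext i
      refine Fin.addCases (fun i => ?_) (fun i => ?_) i
      · show Fin.append (0 : V2 r) (0 : V2 l) (Fin.castAdd l i) = 0
        rw [Fin.append_left]; rfl
      · show Fin.append (0 : V2 r) (0 : V2 l) (Fin.natAdd r i) = 0
        rw [Fin.append_right]; rfl
    · funext i
      refine Fin.addCases (fun i => ?_) (fun i => ?_) i
      · show Fin.append (0 : V2 r) (0 : V2 l) (Fin.castAdd l i) = 0
        rw [Fin.append_left]; rfl
      · show Fin.append (0 : V2 r) (0 : V2 l) (Fin.natAdd r i) = 0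
        rw [Fin.append_right]; rfl
  map_mul' p q := by
    ext1
    · show p.s + q.s + p.b ⬝ᵥ q.a = p.s + q.s + Fin.append 0 p.b ⬝ᵥ Fin.append 0 q.a
      congr 1
      unfold dotProduct
      rw [Fin.sum_univ_add]
      simp
    · funext i
      refine Fin.addCases (fun i => ?_) (fun i => ?_) i
      · show Fin.append (0 : V2 r) (p.a + q.a) (Fin.castAdd l i) =
          Fin.append (0 : V2 r) p.a (Fin.castAdd l i) + Fin.append (0 : V2 r) q.a (Fin.castAdd l i)
        rw [Fin.append_left, Fin.append_left, Fin.append_left]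
        exact (add_zero _).symm
      · show Fin.append (0 : V2 r) (p.a + q.a) (Fin.natAdd r i) =
          Fin.append (0 : V2 r) p.a (Fin.natAdd r i) + Fin.append (0 : V2 r) q.a (Fin.natAdd r i)
        rw [Fin.append_right, Fin.append_right, Fin.append_right]
        rfl
    · funext i
      refine Fin.addCases (fun i => ?_) (fun i => ?_) i
      · show Fin.append (0 : V2 r) (p.b + q.b) (Fin.castAdd l i) =
          Fin.append (0 : V2 r) p.b (Fin.castAdd l i) + Fin.append (0 : V2 r) q.b (Fin.castAdd l i)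
        rw [Fin.append_left, Fin.append_left, Fin.append_left]
        exact (add_zero _).symm
      · show Fin.append (0 : V2 r) (p.b + q.b) (Fin.natAdd r i) =
          Fin.append (0 : V2 r) p.b (Fin.natAdd r i) + Fin.append (0 : V2 r) q.b (Fin.natAdd r i)
        rw [Fin.append_right, Fin.append_right, Fin.append_right]
        rfl

theorem PG.up_a (r l : ℕ) (p : PG l) (i : Fin r) : (PG.up r l p).a (Fin.castAdd l i) = 0 := by
  show Fin.append (0 : V2 r) p.a (Fin.castAdd l i) = 0
  rw [Fin.append_left]; rfl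

theorem PG.up_z (r l : ℕ) : PG.up r l (PG.z l) = PG.z (r + l) := by
  ext1
  · rfl
  · funext i
    refine Fin.addCases (fun i => ?_) (fun i => ?_) i
    · show Fin.append (0 : V2 r) (0 : V2 l) (Fin.castAdd l i) = 0
      rw [Fin.append_left]; rfl
    · show Fin.append (0 : V2 r) (0 : V2 l) (Fin.natAdd r i) = 0
      rw [Fin.append_right]; rfl
  · funext i
    refine Fin.addCases (fun i => ?_) (fun i => ?_) i
    · show Fin.append (0 : V2 r) (0 : V2 l) (Fin.castAdd l i) = 0
      rw [Fin.append_left]; rfl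
    · show Fin.append (0 : V2 r) (0 : V2 l) (Fin.natAdd r i) = 0
      rw [Fin.append_right]; rfl

section algebra

variable {R : Type} [CommRing R]

/-- The symplectic form. -/
def om (p q : V2 k × V2 k) : ZMod 2 := p.2 ⬝ᵥ q.1 + q.2 ⬝ᵥ p.1

variable {N : Finset (V2 k × V2 k)} (h : V2 k → R) (w : N → R)

theorem op_add (p : V2 k × V2 k) (t u : V2 k → R) : op p (t + u) = op p t + op p u := by
  funext x
  simp only [op, Pi.add_apply]
  ring

theorem op_smul (p : V2 k × V2 k) (c : R) (t : V2 k → R) : op p (c • t) = c • op p t := by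
  funext x
  simp only [op, Pi.smul_apply, smul_eq_mul]
  ring

/-- the operator as a linear map -/
def opL (p : V2 k × V2 k) : (V2 k → R) →ₗ[R] (V2 k → R) where
  toFun := op p
  map_add' := op_add p
  map_smul' := op_smul p

theorem op_op (p q : V2 k × V2 k) (t : V2 k → R) :
    op p (op q t) = sg R (p.2 ⬝ᵥ q.1) • op (p + q) t := by
  funext x
  simp only [op, Pi.smul_apply, smul_eq_mul, Prod.fst_add, Prod.snd_add]
  have h1 : x + (p.1 + q.1) = x + p.1 + q.1 := by rw [add_assoc]
  rw [h1, add_dotProduct, sg_add, dotProduct_add p.2 (x + p.1) q.1, sg_add]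
  have h2 := sg_mul_self (R := R) (p.2 ⬝ᵥ q.1)
  linear_combination (-(sg R (p.2 ⬝ᵥ (x + p.1)) * sg R (q.2 ⬝ᵥ (x + p.1 + q.1)) *
    t (x + p.1 + q.1))) * h2

theorem op_comm (p q : V2 k × V2 k) (t : V2 k → R) :
    op p (op q t) = sg R (om p q) • op q (op p t) := by
  rw [op_op, op_op, smul_smul, om, sg_add, mul_assoc, sg_mul_self, mul_one, add_comm p q]

theorem om_add_right (p q r : V2 k × V2 k) : om p (q + r) = om p q + om p r := by
  simp only [om, Prod.fst_add, Prod.snd_add, dotProduct_add, add_dotProduct]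
  ring

theorem om_add_left (p q r : V2 k × V2 k) : om (p + q) r = om p r + om q r := by
  simp only [om, Prod.fst_add, Prod.snd_add, dotProduct_add, add_dotProduct]
  ring

theorem om_comm (p q : V2 k × V2 k) : om p q = om q p := by
  simp only [om]; ring

theorem pr_op (p : V2 k × V2 k) (hp : ∀ x, h (x + p.1) = h x)
    (t u : V2 k → R) : pr h (op p t) (op p u) = pr h t u := by
  unfold pr op
  rw [← Equiv.sum_comp (Equiv.addRight p.1) (fun x => h x * (t x * u x))]
  refine Finset.sum_congr rfl fun x _ => ?_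
  show _ = h (x + p.1) * (t (x + p.1) * u (x + p.1))
  rw [hp]
  have h2 := sg_mul_self (R := R) (p.2 ⬝ᵥ (x + p.1))
  linear_combination (h x * (t (x + p.1) * u (x + p.1))) * h2

theorem pr_smul_left (c : R) (t u : V2 k → R) : pr h (c • t) u = c * pr h t u := by
  unfold pr
  rw [Finset.mul_sum]
  refine Finset.sum_congr rfl fun x _ => ?_
  simp only [Pi.smul_apply, smul_eq_mul]; ring

theorem pr_smul_right (c : R) (t u : V2 k → R) : pr h t (c • u) = c * pr h t u := by
  unfold pr
  rw [Finset.mul_sum]
  refine Finset.sum_congr rfl fun x _ => ?_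
  simp only [Pi.smul_apply, smul_eq_mul]; ring

/-- the action of an element of the Pauli group on the algebra -/
def actF (p : PG k) (x : Alg R N) : Alg R N :=
  (fun q => sg R (om (p.a, p.b) q) * x.1 q, sg R p.s • op (p.a, p.b) x.2)

theorem actF_add (p : PG k) (x y : Alg R N) : actF p (x + y) = actF p x + actF p y := by
  apply Prod.ext
  · funext q
    show sg R (om (p.a, p.b) q) * (x.1 q + y.1 q) = _ * x.1 q + _ * y.1 q
    ring
  · show sg R p.s • op (p.a, p.b) (x.2 + y.2) = sg R p.s • op (p.a, p.b) x.2 +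
      sg R p.s • op (p.a, p.b) y.2
    rw [op_add, smul_add]

theorem actF_smul (p : PG k) (c : R) (x : Alg R N) : actF p (c • x) = c • actF p x := by
  apply Prod.ext
  · funext q
    show sg R (om (p.a, p.b) q) * (c * x.1 q) = c * (sg R (om (p.a, p.b) q) * x.1 q)
    ring
  · show sg R p.s • op (p.a, p.b) (c • x.2) = c • (sg R p.s • op (p.a, p.b) x.2)
    rw [op_smul, smul_comm]

theorem actF_one (x : Alg R N) : actF 1 x = x := by
  refine Prod.ext ?_ ?_
  · funext q
    show sg R (om ((1 : PG k).a, (1 : PG k).b) q) * x.1 q = x.1 q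
    simp [om, sg_zero]
  · show sg R (1 : PG k).s • op ((1 : PG k).a, (1 : PG k).b) x.2 = x.2
    funext y
    simp [op, sg_zero]

theorem actF_mul (p q : PG k) (x : Alg R N) : actF (p * q) x = actF p (actF q x) := by
  refine Prod.ext ?_ ?_
  · funext c
    show sg R (om (p.a + q.a, p.b + q.b) c) * x.1 c =
      sg R (om (p.a, p.b) c) * (sg R (om (q.a, q.b) c) * x.1 c)
    have h1 : ((p.a + q.a, p.b + q.b) : V2 k × V2 k) = (p.a, p.b) + (q.a, q.b) := rfl
    rw [h1, om_add_left, sg_add]
    ring
  · show sg R (p.s + q.s + p.b ⬝ᵥ q.a) • op (p.a + q.a, p.b + q.b) x.2 =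
      sg R p.s • op (p.a, p.b) (sg R q.s • op (q.a, q.b) x.2)
    rw [op_smul, op_op, smul_smul, smul_smul, sg_add, sg_add]
    rfl

theorem actF_mulA (p : PG k) (hp : ∀ x, h (x + p.a) = h x) (x y : Alg R N) :
    actF p (mulA h w x y) = mulA h w (actF p x) (actF p y) := by
  have hop : ∀ (q : V2 k × V2 k) (t : V2 k → R), op q (sg R p.s • op (p.a, p.b) t) =
      sg R (om (p.a, p.b) q) • (sg R p.s • op (p.a, p.b) (op q t)) := by
    intro q t
    rw [op_smul, op_comm, om_comm, smul_comm]
  refine Prod.ext ?_ ?_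
  · funext q
    show sg R (om (p.a, p.b) q) * ((∑ a : N, ∑ b : N, if (a : V2 k × V2 k) + b = q then
      coef R (a : V2 k × V2 k) b * (x.1 a * y.1 b) else 0) +
      w q * pr h x.2 (op q y.2)) =
      (∑ a : N, ∑ b : N, if (a : V2 k × V2 k) + b = q then
      coef R (a : V2 k × V2 k) b *
          ((sg R (om (p.a, p.b) a) * x.1 a) * (sg R (om (p.a, p.b) b) * y.1 b)) else 0) +
      w q * pr h (sg R p.s • op (p.a, p.b) x.2) (op q (sg R p.s • op (p.a, p.b) y.2))
    rw [mul_add, Finset.mul_sum]
    congr 1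
    · refine Finset.sum_congr rfl fun a _ => ?_
      rw [Finset.mul_sum]
      refine Finset.sum_congr rfl fun b _ => ?_
      split_ifs with hab
      · rw [← hab, om_add_right, sg_add]
        ring
      · rw [mul_zero]
    · rw [hop, pr_smul_left, pr_smul_right, pr_smul_right, pr_op h (p.a, p.b) hp]
      have h2 := sg_mul_self (R := R) p.s
      linear_combination (-(w q * sg R (om (p.a, p.b) q) * pr h x.2 (op q y.2))) * h2
  · show sg R p.s • op (p.a, p.b) ((∑ q : N, x.1 q • op (q : V2 k × V2 k) y.2) -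
      ∑ q : N, y.1 q • op (q : V2 k × V2 k) x.2) =
      (∑ q : N, (sg R (om (p.a, p.b) q) * x.1 q) •
        op (q : V2 k × V2 k) (sg R p.s • op (p.a, p.b) y.2)) -
      ∑ q : N, (sg R (om (p.a, p.b) q) * y.1 q) •
        op (q : V2 k × V2 k) (sg R p.s • op (p.a, p.b) x.2)
    have hlin : ∀ v : V2 k → R, sg R p.s • op (p.a, p.b) v = (sg R p.s • opL (p.a, p.b)) v :=
      fun v => rfl
    have key : ∀ (f : N → R) (t : V2 k → R),
        (sg R p.s • opL (R := R) (p.a, p.b)) (∑ q : N, f q • op (q : V2 k × V2 k) t) =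
        ∑ q : N, (sg R (om (p.a, p.b) q) * f q) •
          op (q : V2 k × V2 k) (sg R p.s • op (p.a, p.b) t) := by
      intro f t
      rw [map_sum]
      refine Finset.sum_congr rfl fun q _ => ?_
      rw [map_smul, hop, smul_smul]
      have h2 := sg_mul_self (R := R) (om (p.a, p.b) (q : V2 k × V2 k))
      have h3 : sg R (om (p.a, p.b) (q : V2 k × V2 k)) * f q *
          sg R (om (p.a, p.b) (q : V2 k × V2 k)) = f q := by
        linear_combination f q * h2
      rw [h3]
      rfl
    rw [hlin, map_sub, key, key]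

section up

variable {r l : ℕ} {N : Finset (V2 (r + l) × V2 (r + l))} (h : V2 (r + l) → R) (w : N → R)
  (hh : FirstOnly h)

include hh in
theorem FirstOnly.up (p : PG l) (x : V2 (r + l)) : h (x + (PG.up r l p).a) = h x := by
  apply hh
  intro i
  rw [Pi.add_apply, PG.up_a, add_zero]

/-- the action of an element of the Pauli group as an automorphism -/
def actP (p : PG l) : AutGrp h w :=
  ⟨⟨actF (PG.up r l p), actF (PG.up r l p)⁻¹,
      fun x => by rw [← actF_mul, inv_mul_cancel, actF_one],
      fun x => by rw [← actF_mul, mul_inv_cancel, actF_one]⟩,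
    actF_add _, actF_smul _, actF_mulA h w _ (FirstOnly.up h hh p)⟩

/-- the Pauli group acts by automorphisms of the algebra -/
def phiA : PG l →* AutGrp h w where
  toFun := actP h w hh
  map_one' := Subtype.ext (Equiv.ext fun x => by
    show actF (PG.up r l 1) x = x
    rw [map_one, actF_one])
  map_mul' p q := Subtype.ext (Equiv.ext fun x => by
    show actF (PG.up r l (p * q)) x = actF (PG.up r l p) (actF (PG.up r l q) x)
    rw [map_mul, actF_mul])

theorem phiA_z : IsZeta h w (phiA h w hh (PG.z l)) := by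
  intro x
  show actF (PG.up r l (PG.z l)) x = (x.1, -x.2)
  rw [PG.up_z]
  refine Prod.ext ?_ ?_
  · funext q
    show sg R (om ((PG.z (r + l)).a, (PG.z (r + l)).b) q) * x.1 q = x.1 q
    simp [om, sg_zero, PG.z]
  · show sg R (PG.z (r + l)).s • op ((PG.z (r + l)).a, (PG.z (r + l)).b) x.2 = -x.2
    funext y
    simp [op, PG.z, sg]

end up

end algebra

end Pool.Agent.N987.ZX
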